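import Mathlib
import Pool.Agent.H.MP_9d0e7f_co.Deck

namespace Pool.Agent.Results.MP_9d0e7f_co.Disproof

/-- number of Hamilton cycles: spanning subgraphs isomorphic to the n-cycle, n the order -/
noncomputable def ham {V : Type} [Fintype V] (G : SimpleGraph V) : ℕ :=
  Nat.card {H : SimpleGraph V // H ≤ G ∧ Nonempty (H ≃g SimpleGraph.cycleGraph (Fintype.card V))}

/-- the t-vertex decks agree as multisets of isomorphism classes -/
def SameDeck {V : Type} (G G' : SimpleGraph V) (t : ℕ) : Prop :=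
  ∃ φ : {S : Finset V // S.card = t} ≃ {S : Finset V // S.card = t},
    ∀ S, Nonempty (G.induce (S.1 : Set V) ≃g G'.induce ((φ S).1 : Set V))

theorem result (c : ℝ) (hc0 : 0 ≤ c) (hc1 : c < 1) (n0 : ℕ) :
    ∃ n : ℕ, n0 ≤ n ∧ 3 ≤ n ∧ ∃ (V : Type) (_ : Fintype V), Fintype.card V = n ∧
      ∃ G G' : SimpleGraph V, SameDeck G G' ⌊c * n⌋₊ ∧ ham G = 0 ∧ 0 < ham G' := by
  obtain ⟨n, h0, h3, V, hV, rfl, G, G', h1, h2, h4⟩ :=
    Pool.Agent.H.MP_9d0e7f_co.main c hc0 hc1 n0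
  exact ⟨_, h0, h3, V, hV, rfl, G, G', h1, h2, h4⟩

end Pool.Agent.Results.MP_9d0e7f_co.Disproof
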